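import Mathlib

/-!
# Convex sequences
-/

open Filter Topology

namespace Run7.h630.PC

/-- The slopes of a convex sequence of at most linear growth converge. -/
theorem cvx_lim {x : ℕ → ℝ} {n0 : ℕ} (hc : ∀ q, n0 ≤ q → 2 * x (q + 1) ≤ x q + x (q + 2))
    (hg : ∃ C E : ℝ, ∃ n1 : ℕ, ∀ q : ℕ, n1 ≤ q → x q ≤ C + q * E) :
    ∃ l : ℝ, Tendsto (fun q : ℕ => x q / q) atTop (𝓝 l) ∧
      ∀ n q : ℕ, n0 ≤ n → n ≤ q → x q ≤ x n + (q - n : ℝ) * l := by
  obtain ⟨C, E, n1, hC⟩ := hg
  obtain ⟨d, hd⟩ : ∃ d : ℕ → ℝ, d = fun i => x (n0 + i + 1) - x (n0 + i) := ⟨_, rfl⟩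
  have hmono : Monotone d := by
    refine monotone_nat_of_le_succ fun i => ?_
    rw [hd]
    have := hc (n0 + i) (by omega)
    simp only
    rw [show n0 + (i + 1) + 1 = n0 + i + 2 by ring, show n0 + (i + 1) = n0 + i + 1 by ring]
    linarith
  have hsum : ∀ i t : ℕ, x (n0 + i + t) = x (n0 + i) + ∑ s ∈ Finset.range t, d (i + s) := by
    intro i t
    induction t with
    | zero => simp
    | succ t ih =>
      rw [Finset.sum_range_succ, ← add_assoc (x (n0 + i)), ← ih, hd]
      simp only
      rw [← add_assoc, ← add_assoc]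
      ring
  have hbd : ∀ i, d i ≤ E := by
    intro i
    by_contra hlt
    push Not at hlt
    have h1 : ∀ t : ℕ, x (n0 + i) + t * d i ≤ x (n0 + i + t) := by
      intro t
      rw [hsum]
      have : ∑ s ∈ Finset.range t, d i ≤ ∑ s ∈ Finset.range t, d (i + s) :=
        Finset.sum_le_sum fun s _ => hmono (Nat.le_add_right i s)
      rw [Finset.sum_const, Finset.card_range, nsmul_eq_mul] at this
      linarith
    have h2 : 0 < d i - E := by linarith
    obtain ⟨t0, ht0⟩ := exists_nat_gt ((C + (n0 + i) * E - x (n0 + i)) / (d i - E))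
    have h3 := hC (n0 + i + (t0 + n1)) (by omega)
    have h4 := h1 (t0 + n1)
    rw [div_lt_iff₀ h2] at ht0
    push_cast at h3 h4
    have h5 : (0 : ℝ) ≤ n1 := by positivity
    nlinarith
  have hba : BddAbove (Set.range d) := ⟨E, by rintro _ ⟨i, rfl⟩; exact hbd i⟩
  have hlim := tendsto_atTop_ciSup hmono hba
  obtain ⟨l, hl⟩ : ∃ l, l = ⨆ i, d i := ⟨_, rfl⟩
  rw [← hl] at hlim
  have hle : ∀ i, d i ≤ l := fun i => by rw [hl]; exact le_ciSup hba i
  refine ⟨l, ?_, ?_⟩
  · have h1 := hlim.cesaro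
    have h2 : Tendsto (fun t : ℕ => ((t : ℝ)⁻¹ * ∑ s ∈ Finset.range t, d s) * (t / ((n0 + t : ℕ) : ℝ)) +
        x n0 / ((n0 + t : ℕ) : ℝ)) atTop (𝓝 (l * 1 + 0)) := by
      have e1 : Tendsto (fun t : ℕ => ((n0 + t : ℕ) : ℝ)) atTop atTop :=
        tendsto_natCast_atTop_atTop.comp (tendsto_atTop_mono (fun t => Nat.le_add_left t n0)
          tendsto_id)
      have e2 : Tendsto (fun t : ℕ => (t : ℝ) / ((n0 + t : ℕ) : ℝ)) atTop (𝓝 1) := by
        have e3 : Tendsto (fun t : ℕ => 1 - (n0 : ℝ) / ((n0 + t : ℕ) : ℝ)) atTop (𝓝 (1 - 0)) :=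
          tendsto_const_nhds.sub (e1.const_div_atTop _)
        rw [sub_zero] at e3
        refine e3.congr' ?_
        filter_upwards [eventually_ge_atTop 1] with t ht
        have : ((n0 + t : ℕ) : ℝ) ≠ 0 := by positivity
        field_simp
        push_cast
        ring
      exact (h1.mul e2).add (e1.const_div_atTop _)
    rw [mul_one, add_zero] at h2
    have h3 : Tendsto (fun t : ℕ => x (n0 + t) / ((n0 + t : ℕ) : ℝ)) atTop (𝓝 l) := by
      refine h2.congr' ?_
      filter_upwards [eventually_ge_atTop 1] with t ht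
      have h4 := hsum 0 t
      simp only [add_zero, zero_add] at h4
      rw [h4]
      have h5 : ((n0 + t : ℕ) : ℝ) ≠ 0 := by positivity
      have h6 : (t : ℝ) ≠ 0 := by positivity
      field_simp
      ring
    exact (tendsto_add_atTop_iff_nat n0).mp (h3.congr fun t => by rw [add_comm])
  · intro n q hn hq
    obtain ⟨i, rfl⟩ := Nat.exists_eq_add_of_le hn
    obtain ⟨t, rfl⟩ := Nat.exists_eq_add_of_le hq
    rw [hsum]
    have h1 : ∑ s ∈ Finset.range t, d (i + s) ≤ ∑ s ∈ Finset.range t, l :=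
      Finset.sum_le_sum fun s _ => hle _
    rw [Finset.sum_const, Finset.card_range, nsmul_eq_mul] at h1
    push_cast
    linarith

/-- three points of a convex sequence -/
theorem cvx3 {y : ℕ → ℝ} {M : ℕ} (hc : ∀ j, j + 2 ≤ M → 2 * y (j + 1) ≤ y j + y (j + 2))
    {a b c : ℕ} (hab : a ≤ b) (hbc : b ≤ c) (hcM : c ≤ M) :
    (c - a : ℝ) * y b ≤ (c - b : ℝ) * y a + (b - a : ℝ) * y c := by
  rcases Nat.eq_or_lt_of_le hbc with h | h
  · subst h
    linarith
  obtain ⟨D, hD⟩ : ∃ D, D = y (b + 1) - y b := ⟨_, rfl⟩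
  have up : ∀ t : ℕ, b + t + 1 ≤ M → D ≤ y (b + t + 1) - y (b + t) := by
    intro t
    induction t with
    | zero => intro _; rw [hD]; simp
    | succ t ih =>
      intro ht
      have h1 := ih (by omega)
      have h2 := hc (b + t) (by omega)
      rw [show b + (t + 1) + 1 = b + t + 2 by ring, show b + (t + 1) = b + t + 1 by ring]
      linarith
  have up2 : ∀ t : ℕ, b + t ≤ M → y b + t * D ≤ y (b + t) := by
    intro t
    induction t with
    | zero => intro _; simp
    | succ t ih =>
      intro ht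
      have h1 := ih (by omega)
      have h2 := up t (by omega)
      rw [← add_assoc]
      push_cast
      linarith
  have down : ∀ t : ℕ, t ≤ b → y (b - t + 1) - y (b - t) ≤ D := by
    intro t
    induction t with
    | zero => intro _; rw [hD]; simp
    | succ t ih =>
      intro ht
      have h1 := ih (by omega)
      have h2 := hc (b - (t + 1)) (by omega)
      rw [show b - (t + 1) + 2 = b - t + 1 by omega] at h2
      have h3 : b - (t + 1) + 1 = b - t := by omega
      rw [h3] at h2 ⊢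
      linarith
  have down2 : ∀ t : ℕ, t ≤ b → y b - t * D ≤ y (b - t) := by
    intro t
    induction t with
    | zero => intro _; simp
    | succ t ih =>
      intro ht
      have h1 := ih (by omega)
      have h2 := down (t + 1) ht
      rw [show b - (t + 1) + 1 = b - t by omega] at h2
      push_cast
      linarith
  have h1 := up2 (c - b) (by omega)
  have h2 := down2 (b - a) (by omega)
  rw [show b + (c - b) = c by omega, Nat.cast_sub hbc] at h1
  rw [show b - (b - a) = a by omega, Nat.cast_sub hab] at h2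
  have h3 : (0 : ℝ) ≤ (b : ℝ) - a := by
    have : (a : ℝ) ≤ b := by exact_mod_cast hab
    linarith
  have h4 : (0 : ℝ) ≤ (c : ℝ) - b := by
    have : (b : ℝ) ≤ c := by exact_mod_cast hbc
    linarith
  have h5 := mul_le_mul_of_nonneg_left h1 h3
  have h6 := mul_le_mul_of_nonneg_left h2 h4
  nlinarith

end Run7.h630.PC
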