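import Pool.Agent.Run7.h897.ST.PD
import Pool.Agent.Run7.h630.PC.Cv

/-!
# PC4-II: the potential
-/

open Filter Topology
open Pool.Agent.Run7.h897.PC

namespace Run7.h630.PC

set_option linter.unusedVariables false

section

variable {D : PD} {N A0 K : ℕ} {m : ℝ}

theorem log_sq {a b c : ℝ} (ha : 0 < a) (hb : 0 < b) (hc : 0 < c) (h : b ^ 2 ≤ a * c) :
    2 * Real.log b ≤ Real.log a + Real.log c := by
  rw [← Real.log_mul ha.ne' hc.ne']
  have := Real.log_le_log (by positivity) h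
  rwa [Real.log_pow] at this

/-- the error exponent -/
noncomputable def er (m : ℝ) (p q : ℕ) : ℝ := Real.exp (-(2 * m * (min p q : ℕ)))

theorem er_le_one (hm : 0 < m) (p q : ℕ) : er m p q ≤ 1 := by
  unfold er
  rw [Real.exp_le_one_iff]
  have : (0 : ℝ) ≤ (min p q : ℕ) := Nat.cast_nonneg _
  nlinarith

theorem er_nonneg (p q : ℕ) : 0 ≤ er m p q := (Real.exp_pos _).le

/-- the sector `0` dominates -/
theorem dom (h : D.Ok N A0 m) (hs : D.φ (D.s 0) < D.φ 0)
    (hd : ∀ c, c < N → c ≠ 0 → D.φ 0 - D.φ (D.s 0) + 1 ≤ K * (D.φ 0 - D.φ c)) {c i j : ℕ}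
    (hc : c < N) (hi : K * j ≤ i) :
    (i : ℝ) * D.φ c + j * D.φ (D.s c) ≤ i * D.φ 0 + j * D.φ (D.s 0) := by
  by_cases h0 : c = 0
  · subst h0; exact le_rfl
  · have h1 := hd c hc h0
    have h2 := h.φle c hc
    have h3 := h.φle (D.s c) (h.sN c hc)
    have h4 : (K : ℝ) * j ≤ i := by exact_mod_cast hi
    have hj : (0 : ℝ) ≤ j := Nat.cast_nonneg _
    have h5 : (K : ℝ) * j * (D.φ 0 - D.φ c) ≤ i * (D.φ 0 - D.φ c) :=
      mul_le_mul_of_nonneg_right h4 (by linarith)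
    have h6 : (j : ℝ) * (D.φ 0 - D.φ (D.s 0)) ≤ j * (K * (D.φ 0 - D.φ c)) :=
      mul_le_mul_of_nonneg_left (by linarith) hj
    have h7 : (j : ℝ) * D.φ (D.s c) ≤ j * D.φ 0 := mul_le_mul_of_nonneg_left h3 hj
    nlinarith

theorem A_le (h : D.Ok N A0 m) (hs : D.φ (D.s 0) < D.φ 0)
    (hd : ∀ c, c < N → c ≠ 0 → D.φ 0 - D.φ (D.s 0) + 1 ≤ K * (D.φ 0 - D.φ c)) {c q i j : ℕ}
    (hc : c < N) (hq : 1 ≤ q) (hq' : A0 ≤ q) (hi : 1 ≤ i) (hj : 1 ≤ j) (hi' : A0 ≤ 2 * i)
    (hj' : A0 ≤ 2 * j) (hij : K * j ≤ i) :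
    D.A c q i j ≤ Real.exp (q * (i * D.φ 0 + j * D.φ (D.s 0)) + (2 * i + q) / 2 * er m (2 * i) q +
      (2 * j + q) / 2 * er m (2 * j) q) := by
  have z1 := h.Zpos c (2 * i) q hc hi' hq'
  have z2 := h.Zpos (D.s c) (2 * j) q (h.sN c hc) hj' hq'
  have u1 := h.Zup c (2 * i) q hc hi' hq'
  have u2 := h.Zup (D.s c) (2 * j) q (h.sN c hc) hj' hq'
  have h1 := h.Ale c q i j hc hq hi hj
  have h2 : D.A c q i j ^ 2 ≤ (Real.exp ((Real.log (D.Z c (2 * i) q) +
      Real.log (D.Z (D.s c) (2 * j) q)) / 2)) ^ 2 := by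
    rw [← Real.exp_nat_mul]
    have : ((2 : ℕ) : ℝ) * ((Real.log (D.Z c (2 * i) q) + Real.log (D.Z (D.s c) (2 * j) q)) / 2) =
        Real.log (D.Z c (2 * i) q) + Real.log (D.Z (D.s c) (2 * j) q) := by push_cast; ring
    rw [this, Real.exp_add, Real.exp_log z1, Real.exp_log z2]
    exact h1
  have h3 := abs_le_of_sq_le_sq h2 (Real.exp_pos _).le
  refine ((le_abs_self _).trans h3).trans (Real.exp_le_exp.mpr ?_)
  have h4 := dom h hs hd hc hij
  have h5 : (0 : ℝ) ≤ q := Nat.cast_nonneg _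
  have h6 := mul_le_mul_of_nonneg_left h4 h5
  unfold er
  push_cast at u1 u2 ⊢
  nlinarith

theorem F_le (h : D.Ok N A0 m) (hN : 1 ≤ N) (hs : D.φ (D.s 0) < D.φ 0)
    (hd : ∀ c, c < N → c ≠ 0 → D.φ 0 - D.φ (D.s 0) + 1 ≤ K * (D.φ 0 - D.φ c)) {q i j : ℕ}
    (hq : 1 ≤ q) (hq' : A0 ≤ q) (hi : 1 ≤ i) (hj : 1 ≤ j) (hi' : A0 ≤ 2 * i)
    (hj' : A0 ≤ 2 * j) (hij : K * j ≤ i) :
    Real.log (D.F q i j) ≤ Real.log N + q * (i * D.φ 0 + j * D.φ (D.s 0)) +
      (2 * i + q) / 2 * er m (2 * i) q + (2 * j + q) / 2 * er m (2 * j) q := by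
  have hN0 : (0 : ℝ) < N := by exact_mod_cast hN
  have h1 := h.sum q i j hq hi hj
  have h2 : D.F q i j ≤ N * Real.exp (q * (i * D.φ 0 + j * D.φ (D.s 0)) +
      (2 * i + q) / 2 * er m (2 * i) q + (2 * j + q) / 2 * er m (2 * j) q) := by
    rw [h1]
    refine (Finset.sum_le_card_nsmul _ _ _ fun c hc => A_le h hs hd (Finset.mem_range.mp hc) hq hq'
      hi hj hi' hj' hij).trans (le_of_eq ?_)
    rw [Finset.card_range, nsmul_eq_mul]
  have h3 := Real.log_le_log (h.Fpos q i j hq hi hj) h2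
  rw [Real.log_mul hN0.ne' (Real.exp_pos _).ne', Real.log_exp] at h3
  linarith

theorem T_pos (h : D.Ok N A0 m) (hN : 1 ≤ N) {p q : ℕ} (hp : 1 ≤ p) (hq : 1 ≤ q) (hp' : A0 ≤ p)
    (hq' : A0 ≤ q) : 0 < D.T p q ∧ D.Z 0 p q ≤ D.T p q := by
  have h1 : D.Z 0 p q ≤ D.T p q := by
    rw [h.Tsum p q hp hq]
    exact Finset.single_le_sum (f := fun c => D.Z c p q)
      (fun c hc => (h.Zpos c p q (Finset.mem_range.mp hc) hp' hq').le)
      (Finset.mem_range.mpr (by omega))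
  exact ⟨lt_of_lt_of_le (h.Zpos 0 p q (by omega) hp' hq') h1, h1⟩

theorem T_ge (h : D.Ok N A0 m) (hN : 1 ≤ N) {p q : ℕ} (hp : 1 ≤ p) (hq : 1 ≤ q) (hp' : A0 ≤ p)
    (hq' : A0 ≤ q) : (p : ℝ) * q * D.φ 0 ≤ Real.log (D.T p q) :=
  (h.Zlo 0 p q (by omega) hp' hq').trans
    (Real.log_le_log (h.Zpos 0 p q (by omega) hp' hq') (T_pos h hN hp hq hp' hq').2)

theorem T_le (h : D.Ok N A0 m) (hN : 1 ≤ N) {p q : ℕ} (hp : 1 ≤ p) (hq : 1 ≤ q) (hp' : A0 ≤ p)
    (hq' : A0 ≤ q) : Real.log (D.T p q) ≤ Real.log N + p * q * D.φ 0 + (p + q) * er m p q := by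
  have hN0 : (0 : ℝ) < N := by exact_mod_cast hN
  have h2 : D.T p q ≤ N * Real.exp (p * q * D.φ 0 + (p + q) * er m p q) := by
    rw [h.Tsum p q hp hq]
    refine (Finset.sum_le_card_nsmul _ _ (Real.exp (p * q * D.φ 0 + (p + q) * er m p q))
      fun c hc => ?_).trans (le_of_eq ?_)
    · have hc' := Finset.mem_range.mp hc
      have u := h.Zup c p q hc' hp' hq'
      have l := h.φle c hc'
      rw [← Real.exp_log (h.Zpos c p q hc' hp' hq')]
      refine Real.exp_le_exp.mpr (u.trans ?_)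
      unfold er
      have : (p : ℝ) * q * D.φ c ≤ p * q * D.φ 0 := mul_le_mul_of_nonneg_left l (by positivity)
      linarith
    · rw [Finset.card_range, nsmul_eq_mul]
  have h3 := Real.log_le_log (T_pos h hN hp hq hp' hq').1 h2
  rw [Real.log_mul hN0.ne' (Real.exp_pos _).ne', Real.log_exp] at h3
  linarith

/-- limits of the error terms -/
theorem er_lim (a : ℕ) : Tendsto (fun q : ℕ => (a + q : ℝ) / q * er m a q) atTop
    (𝓝 (Real.exp (-(2 * m * a)))) := by
  have h1 : Tendsto (fun q : ℕ => (a : ℝ) / q + 1) atTop (𝓝 (0 + 1)) :=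
    (tendsto_natCast_atTop_atTop.const_div_atTop _).add_const _
  rw [zero_add] at h1
  have h2 := h1.mul_const (Real.exp (-(2 * m * a)))
  rw [one_mul] at h2
  refine h2.congr' ?_
  filter_upwards [eventually_ge_atTop (max a 1)] with q hq
  have hq1 : 1 ≤ q := le_trans (le_max_right _ _) hq
  have hqa : a ≤ q := le_trans (le_max_left _ _) hq
  unfold er
  rw [min_eq_left hqa]
  have : (q : ℝ) ≠ 0 := by positivity
  field_simp

/-- the limits for a circle of half length `l`, distances up to `J` -/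
structure Lm (D : PD) (A0 : ℕ) (m : ℝ) (l J : ℕ) (τ : ℝ) (ω : ℕ → ℝ) : Prop where
  tT : Tendsto (fun q : ℕ => Real.log (D.T l q) / q) atTop (𝓝 τ)
  tlo : (l : ℝ) * D.φ 0 ≤ τ
  tup : τ ≤ l * D.φ 0 + Real.exp (-(2 * m * l))
  tF : ∀ j, 1 ≤ j → j ≤ J → Tendsto (fun q : ℕ => Real.log (D.F q (l - j) j) / q) atTop (𝓝 (ω j))
  sl : ∀ j, 1 ≤ j → j ≤ J → ∀ n q : ℕ, 1 ≤ n → n ≤ q →
    Real.log (D.F q (l - j) j) ≤ Real.log (D.F n (l - j) j) + (q - n : ℝ) * ω j
  cv : ∀ a b c : ℕ, 1 ≤ a → a ≤ b → b ≤ c → c ≤ J →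
    (c - a : ℝ) * ω b ≤ (c - b : ℝ) * ω a + (b - a : ℝ) * ω c
  c0 : ∀ b c : ℕ, 1 ≤ b → b ≤ c → c ≤ J → (c : ℝ) * ω b ≤ (c - b : ℝ) * τ + b * ω c
  up : ∀ j : ℕ, 1 ≤ j → j ≤ J → A0 ≤ 2 * j → ω j ≤ ((l - j : ℕ) : ℝ) * D.φ 0 + j * D.φ (D.s 0) +
    (Real.exp (-(4 * m * ((l - j : ℕ) : ℝ))) + Real.exp (-(4 * m * j))) / 2

theorem exists_lm (h : D.Ok N A0 m) (hT : ∀ p q, 1 ≤ p → 1 ≤ q →
    D.T p (q + 1) ^ 2 ≤ D.T p q * D.T p (q + 2)) (hm : 0 < m) (hN : 1 ≤ N) (hA : 1 ≤ A0)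
    (hK : 1 ≤ K) (hs : D.φ (D.s 0) < D.φ 0)
    (hd : ∀ c, c < N → c ≠ 0 → D.φ 0 - D.φ (D.s 0) + 1 ≤ K * (D.φ 0 - D.φ c)) {l J : ℕ}
    (hl : 3 ≤ l) (hlA : A0 ≤ l) (hJ : 1 ≤ J) (hJA : A0 ≤ 2 * J) (hJl : (K + 1) * J ≤ l) :
    ∃ (τ : ℝ) (ω : ℕ → ℝ), Lm D A0 m l J τ ω := by
  have hN0 : (0 : ℝ) < N := by exact_mod_cast hN
  have hlogN : 0 ≤ Real.log N := Real.log_nonneg (by exact_mod_cast hN)
  have hJl' : J + J ≤ l := by nlinarith
  -- the limit of `T`
  obtain ⟨τ, hτ, hτs⟩ := cvx_lim (x := fun q => Real.log (D.T l q)) (n0 := A0)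
    (fun q hq => log_sq (T_pos h hN (by omega) (by omega) hlA hq).1
      (T_pos h hN (by omega) (by omega) hlA (by omega)).1
      (T_pos h hN (by omega) (by omega) hlA (by omega)).1 (hT l q (by omega) (by omega)))
    ⟨Real.log N + l, l * D.φ 0 + 1, A0, fun q hq => by
      have h1 := T_le h hN (p := l) (q := q) (by omega) (by omega) hlA hq
      have h2 := er_le_one hm l q
      have h3 := er_nonneg (m := m) l q
      have h4 : ((l : ℝ) + q) * er m l q ≤ l + q := mul_le_of_le_one_right (by positivity) h2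
      nlinarith⟩
  have htlo : (l : ℝ) * D.φ 0 ≤ τ := by
    refine ge_of_tendsto hτ ?_
    filter_upwards [eventually_ge_atTop A0] with q hq
    have hq0 : (0 : ℝ) < q := by exact_mod_cast (by omega : 0 < q)
    rw [le_div_iff₀ hq0]
    have := T_ge h hN (p := l) (q := q) (by omega) (by omega) hlA hq
    nlinarith
  have htup : τ ≤ l * D.φ 0 + Real.exp (-(2 * m * l)) := by
    have h1 : Tendsto (fun q : ℕ => Real.log N / q + l * D.φ 0 + ((l : ℕ) + q : ℝ) / q * er m l q)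
        atTop (𝓝 (0 + l * D.φ 0 + Real.exp (-(2 * m * l)))) :=
      ((tendsto_natCast_atTop_atTop.const_div_atTop _).add_const _).add (er_lim l)
    rw [zero_add] at h1
    refine le_of_tendsto_of_tendsto hτ h1 ?_
    filter_upwards [eventually_ge_atTop A0] with q hq
    have hq0 : (0 : ℝ) < q := by exact_mod_cast (by omega : 0 < q)
    rw [div_le_iff₀ hq0]
    have := T_le h hN (p := l) (q := q) (by omega) (by omega) hlA hq
    refine this.trans (le_of_eq ?_)
    field_simp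
  -- convexity in `j`
  obtain ⟨f, hf⟩ : ∃ f : ℕ → ℕ → ℝ, f = fun q j => Real.log (D.F q (l - j) j) := ⟨_, rfl⟩
  have hF0 : ∀ q, 1 ≤ q → 0 < D.F q l 0 := by
    intro q hq
    have h1 := h.lcj q (l - 2) 0 hq
    rw [show l - 2 + 1 = l - 1 by omega, show l - 2 + 2 = l by omega] at h1
    have h2 := h.Fpos q (l - 1) (0 + 1) hq (by omega) (by omega)
    have h3 := h.Fpos q (l - 2) (0 + 2) hq (by omega) (by omega)
    have h4 : 0 < D.F q l 0 * D.F q (l - 2) (0 + 2) := lt_of_lt_of_le (by positivity) h1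
    exact (pos_iff_pos_of_mul_pos h4).mpr h3
  have hFp : ∀ q j, 1 ≤ q → j ≤ J → 0 < D.F q (l - j) j := by
    intro q j hq hj
    rcases Nat.eq_zero_or_pos j with h0 | h0
    · subst h0; simpa using hF0 q hq
    · exact h.Fpos q (l - j) j hq (by omega) h0
  have hfc : ∀ q, 1 ≤ q → ∀ j, j + 2 ≤ J → 2 * f q (j + 1) ≤ f q j + f q (j + 2) := by
    intro q hq j hj
    rw [hf]
    simp only
    have h1 := h.lcj q (l - (j + 2)) j hq
    rw [show l - (j + 2) + 1 = l - (j + 1) by omega, show l - (j + 2) + 2 = l - j by omega] at h1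
    exact log_sq (hFp q j hq (by omega)) (hFp q (j + 1) hq (by omega)) (hFp q (j + 2) hq hj) h1
  have hf0 : ∀ q, A0 ≤ q → f q 0 ≤ Real.log (D.T l q) := by
    intro q hq
    rw [hf]
    simp only [Nat.sub_zero]
    exact Real.log_le_log (hF0 q (by omega)) (h.F0 q l (by omega) (by omega))
  -- a bound for `f q J`
  have hfJ : ∀ j, 1 ≤ j → j ≤ J → A0 ≤ 2 * j → ∀ q, A0 ≤ q → f q j ≤ Real.log N +
      q * ((l - j : ℕ) * D.φ 0 + j * D.φ (D.s 0)) + (2 * (l - j : ℕ) + q) / 2 *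
        er m (2 * (l - j)) q + (2 * j + q) / 2 * er m (2 * j) q := by
    intro j hj1 hj hjA q hq
    rw [hf]
    refine F_le h hN hs hd (by omega) hq (by omega) hj1 (by omega) hjA ?_
    have : K * j + j ≤ l := by nlinarith
    omega
  have hgr : ∀ j, 1 ≤ j → j ≤ J → ∃ C E : ℝ, ∃ n1 : ℕ, ∀ q : ℕ, n1 ≤ q → f q j ≤ C + q * E := by
    intro j hj1 hj
    have g0 : ∀ q, A0 ≤ q → f q 0 ≤ (Real.log N + l) + q * (l * D.φ 0 + 1) := by
      intro q hq
      have h1 := T_le h hN (p := l) (q := q) (by omega) (by omega) hlA hq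
      have h2 := er_le_one hm l q
      have h3 := er_nonneg (m := m) l q
      have h4 : ((l : ℝ) + q) * er m l q ≤ l + q := mul_le_of_le_one_right (by positivity) h2
      have h5 := hf0 q hq
      nlinarith
    have gJ : ∀ q, A0 ≤ q → f q J ≤ (Real.log N + l) +
        q * ((l - J : ℕ) * D.φ 0 + J * D.φ (D.s 0) + 1) := by
      intro q hq
      have h1 := hfJ J hJ le_rfl hJA q hq
      have h2 := er_le_one hm (2 * (l - J)) q
      have h4 := er_le_one hm (2 * J) q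
      have h6 : (2 * ((l - J : ℕ) : ℝ) + q) / 2 * er m (2 * (l - J)) q ≤
          (2 * ((l - J : ℕ) : ℝ) + q) / 2 := mul_le_of_le_one_right (by positivity) h2
      have h7 : (2 * (J : ℝ) + q) / 2 * er m (2 * J) q ≤ (2 * (J : ℝ) + q) / 2 :=
        mul_le_of_le_one_right (by positivity) h4
      have h8 : ((l - J : ℕ) : ℝ) + J = l := by
        rw [← Nat.cast_add]; congr 1; omega
      linarith
    have hJ0 : (0 : ℝ) < J := by exact_mod_cast hJ
    refine ⟨((J - j : ℝ) * (Real.log N + l) + j * (Real.log N + l)) / J,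
      ((J - j : ℝ) * (l * D.φ 0 + 1) + j * ((l - J : ℕ) * D.φ 0 + J * D.φ (D.s 0) + 1)) / J, A0,
      fun q hq => ?_⟩
    have h1 := cvx3 (hfc q (by omega)) (Nat.zero_le j) hj le_rfl
    have h2 : (0 : ℝ) ≤ (J : ℝ) - j := by
      have : (j : ℝ) ≤ J := by exact_mod_cast hj
      linarith
    have h3 := mul_le_mul_of_nonneg_left (g0 q hq) h2
    have h4 := mul_le_mul_of_nonneg_left (gJ q hq) (Nat.cast_nonneg (α := ℝ) j)
    simp only [Nat.cast_zero, sub_zero] at h1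
    have h5 : f q j * J ≤ ((J - j : ℝ) * (Real.log N + l) + j * (Real.log N + l)) +
        q * ((J - j : ℝ) * (l * D.φ 0 + 1) + j * ((l - J : ℕ) * D.φ 0 + J * D.φ (D.s 0) + 1)) := by
      nlinarith
    rw [← le_div_iff₀ hJ0] at h5
    refine h5.trans (le_of_eq ?_)
    field_simp
  have hlim : ∀ j, ∃ w : ℝ, 1 ≤ j → j ≤ J → Tendsto (fun q : ℕ => f q j / q) atTop (𝓝 w) ∧
      ∀ n q : ℕ, 1 ≤ n → n ≤ q → f q j ≤ f n j + (q - n : ℝ) * w := by
    intro j
    by_cases hj : 1 ≤ j ∧ j ≤ J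
    · obtain ⟨w, hw⟩ := cvx_lim (x := fun q => f q j) (n0 := 1) (fun q hq => by
        rw [hf]
        have hij : 1 ≤ l - j := by omega
        exact log_sq (h.Fpos _ _ _ hq hij hj.1) (h.Fpos _ _ _ (by omega) hij hj.1)
          (h.Fpos _ _ _ (by omega) hij hj.1) (h.lcq q (l - j) j hq hij hj.1))
        (hgr j hj.1 hj.2)
      exact ⟨w, fun _ _ => hw⟩
    · exact ⟨0, fun h1 h2 => absurd ⟨h1, h2⟩ hj⟩
  choose ω hω using hlim
  refine ⟨τ, ω, hτ, htlo, htup, fun j h1 h2 => ?_, fun j h1 h2 => ?_, ?_, ?_, ?_⟩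
  · have := (hω j h1 h2).1
    rw [hf] at this
    exact this
  · have := (hω j h1 h2).2
    rw [hf] at this
    exact this
  · intro a b c ha hab hbc hc
    have t1 := ((hω b (by omega) (by omega)).1).const_mul (c - a : ℝ)
    have t2 := (((hω a ha (by omega)).1).const_mul (c - b : ℝ)).add
      (((hω c (by omega) hc).1).const_mul (b - a : ℝ))
    refine le_of_tendsto_of_tendsto t1 t2 ?_
    filter_upwards [eventually_ge_atTop 1] with q hq
    have hq0 : (0 : ℝ) < q := by exact_mod_cast (by omega : 0 < q)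
    have h1 := cvx3 (hfc q hq) hab hbc hc
    have h2 : (c - b : ℝ) * (f q a / q) + (b - a : ℝ) * (f q c / q) =
        ((c - b : ℝ) * f q a + (b - a : ℝ) * f q c) / q := by ring
    rw [h2, ← mul_div_assoc]
    exact div_le_div_of_nonneg_right h1 hq0.le
  · intro b c hb hbc hc
    have t1 := ((hω b (by omega) (by omega)).1).const_mul (c : ℝ)
    have t2 := (hτ.const_mul (c - b : ℝ)).add (((hω c (by omega) hc).1).const_mul (b : ℝ))
    refine le_of_tendsto_of_tendsto t1 t2 ?_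
    filter_upwards [eventually_ge_atTop A0] with q hq
    have hq0 : (0 : ℝ) < q := by exact_mod_cast (by omega : 0 < q)
    have h1 := cvx3 (hfc q (by omega)) (Nat.zero_le b) hbc hc
    simp only [Nat.cast_zero, sub_zero] at h1
    have h3 := hf0 q hq
    have h4 : (0 : ℝ) ≤ (c : ℝ) - b := by
      have : (b : ℝ) ≤ c := by exact_mod_cast hbc
      linarith
    have h5 := mul_le_mul_of_nonneg_left h3 h4
    have h2 : (c - b : ℝ) * (Real.log (D.T l q) / q) + (b : ℝ) * (f q c / q) =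
        ((c - b : ℝ) * Real.log (D.T l q) + (b : ℝ) * f q c) / q := by ring
    rw [h2, ← mul_div_assoc]
    exact div_le_div_of_nonneg_right (by linarith) hq0.le
  · intro j h1 h2 h3
    have e1 := er_lim (m := m) (2 * (l - j))
    have e2 := er_lim (m := m) (2 * j)
    have t1 : Tendsto (fun q : ℕ => Real.log N / q + ((l - j : ℕ) * D.φ 0 + j * D.φ (D.s 0)) +
        (((2 * (l - j) : ℕ) + q : ℝ) / q * er m (2 * (l - j)) q) / 2 +
        (((2 * j : ℕ) + q : ℝ) / q * er m (2 * j) q) / 2) atTop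
        (𝓝 (0 + ((l - j : ℕ) * D.φ 0 + j * D.φ (D.s 0)) +
          Real.exp (-(2 * m * (2 * (l - j) : ℕ))) / 2 + Real.exp (-(2 * m * (2 * j : ℕ))) / 2)) :=
      (((tendsto_natCast_atTop_atTop.const_div_atTop _).add_const _).add (e1.div_const 2)).add
        (e2.div_const 2)
    have h4 : ω j ≤ 0 + ((l - j : ℕ) * D.φ 0 + j * D.φ (D.s 0)) +
          Real.exp (-(2 * m * (2 * (l - j) : ℕ))) / 2 + Real.exp (-(2 * m * (2 * j : ℕ))) / 2 := by
      refine le_of_tendsto_of_tendsto (hω j h1 h2).1 t1 ?_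
      filter_upwards [eventually_ge_atTop A0] with q hq
      have hq0 : (0 : ℝ) < q := by exact_mod_cast (by omega : 0 < q)
      rw [div_le_iff₀ hq0]
      refine (hfJ j h1 h2 h3 q hq).trans (le_of_eq ?_)
      push_cast
      field_simp
    refine h4.trans (le_of_eq ?_)
    push_cast
    ring_nf

theorem exists_small {m : ℝ} (hm : 0 < m) {δ : ℝ} (hδ : 0 < δ) :
    ∃ n1 : ℕ, ∀ n : ℕ, n1 ≤ n → Real.exp (-(m * n)) ≤ δ := by
  have h1 : Tendsto (fun n : ℕ => Real.exp (-(m * n))) atTop (𝓝 0) := by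
    refine Real.tendsto_exp_neg_atTop_nhds_zero.comp ?_
    exact tendsto_natCast_atTop_atTop.const_mul_atTop hm
  have h2 := h1.eventually_le_const hδ
  exact eventually_atTop.mp h2

theorem exists_small2 {m : ℝ} (hm : 0 < m) :
    ∃ n1 : ℕ, ∀ n : ℕ, n1 ≤ n → ((n : ℝ) + 2) ^ 2 * Real.exp (-(2 * m * n)) ≤ 1 := by
  have h0 := Real.tendsto_pow_mul_exp_neg_atTop_nhds_zero 2
  have h1 : Tendsto (fun n : ℕ => 2 * m * ((n : ℝ) + 2)) atTop atTop :=
    (tendsto_atTop_add_const_right _ _ tendsto_natCast_atTop_atTop).const_mul_atTop (by positivity)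
  have h2 := (h0.comp h1).const_mul (Real.exp (4 * m) / (2 * m) ^ 2)
  rw [mul_zero] at h2
  have h3 := h2.eventually_le_const (show (0 : ℝ) < 1 by norm_num)
  obtain ⟨n1, hn1⟩ := eventually_atTop.mp h3
  refine ⟨n1, fun n hn => ?_⟩
  have h4 := hn1 n hn
  simp only [Function.comp] at h4
  refine le_trans (le_of_eq ?_) h4
  have h5 : Real.exp (-(2 * m * ((n : ℝ) + 2))) = Real.exp (-(2 * m * n)) * Real.exp (-(4 * m)) := by
    rw [← Real.exp_add]; congr 1; ring
  rw [h5]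
  have h6 : Real.exp (4 * m) * Real.exp (-(4 * m)) = 1 := by
    rw [← Real.exp_add, add_neg_cancel, Real.exp_zero]
  have hm0 : (2 * m) ^ 2 ≠ 0 := by positivity
  rw [div_mul_eq_mul_div, eq_div_iff hm0]
  linear_combination (-(2 * m) ^ 2 * ((n : ℝ) + 2) ^ 2 * Real.exp (-(2 * m * n))) * h6

end

/-- PC4-II. -/
theorem tII : S_II := by
  intro m α N hm hα hαm hN D A0 K q0 h hA hAq hK hs hd hbase ε hε
  obtain ⟨σ, hσ⟩ : ∃ σ, σ = D.φ 0 - D.φ (D.s 0) := ⟨_, rfl⟩
  have hσ0 : 0 < σ := by rw [hσ]; linarith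
  have hlogN : 0 ≤ Real.log N := Real.log_nonneg (by exact_mod_cast hN)
  -- constants
  obtain ⟨j0, hj0⟩ := exists_small (m := 4 * m) (by positivity) (show 0 < ε * σ by positivity)
  obtain ⟨j1, hj1⟩ : ∃ j1, j1 = max (max j0 A0) 1 := ⟨_, rfl⟩
  have hj1a : j0 ≤ j1 := by rw [hj1]; exact le_trans (le_max_left _ _) (le_max_left _ _)
  have hj1b : A0 ≤ j1 := by rw [hj1]; exact le_trans (le_max_right _ _) (le_max_left _ _)
  have hj1c : 1 ≤ j1 := by rw [hj1]; exact le_max_right _ _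
  obtain ⟨n2, hn2⟩ := exists_small2 hm
  obtain ⟨n3, hn3⟩ := exists_small (m := 2 * m) (by positivity) (show 0 < α / 2 by positivity)
  obtain ⟨n4, hn4⟩ := exists_nat_ge ((1 + Real.log N) / α)
  obtain ⟨B, hB⟩ := exists_nat_ge (2 + 4 * (5 * α + 1) / α)
  obtain ⟨n1, hn1⟩ : ∃ n1, n1 = n2 + n3 + n4 + (K + 1) * B + j1 + A0 + q0 + 3 := ⟨_, rfl⟩
  refine ⟨n1 ^ 2 + K, fun i j hj hij => ?_⟩
  obtain ⟨l, hl⟩ : ∃ l, l = i + j := ⟨_, rfl⟩
  have hi1 : n1 ^ 2 + K ≤ i := le_trans (Nat.le_mul_of_pos_right _ hj) hij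
  have hKj : K * j ≤ i := le_trans (Nat.mul_le_mul_right j (by omega)) hij
  obtain ⟨n, hn⟩ : ∃ n, n = Nat.sqrt l := ⟨_, rfl⟩
  have hnn : n1 ≤ n := by
    rw [hn, Nat.le_sqrt]
    have : n1 * n1 = n1 ^ 2 := by ring
    omega
  have hnl : n * n ≤ l := by rw [hn]; exact Nat.sqrt_le l
  have hln : l < (n + 1) * (n + 1) := by rw [hn]; exact Nat.lt_succ_sqrt l
  obtain ⟨J, hJ⟩ : ∃ J, J = l / (K + 1) := ⟨_, rfl⟩
  have hJl : (K + 1) * J ≤ l := by rw [hJ]; exact Nat.mul_div_le l (K + 1)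
  have hBn : B * n ≤ J := by
    rw [hJ, Nat.le_div_iff_mul_le (by omega)]
    calc B * n * (K + 1) = ((K + 1) * B) * n := by ring
      _ ≤ n * n := Nat.mul_le_mul_right n (by omega)
      _ ≤ l := hnl
  have hB2 : 2 ≤ B := by
    have h1 : (2 : ℝ) ≤ B := le_trans (by
      have : 0 ≤ 4 * (5 * α + 1) / α := by positivity
      linarith) hB
    exact_mod_cast h1
  have hnJ : 2 * n ≤ J := le_trans (Nat.mul_le_mul_right n hB2) hBn
  have hn1' : 3 ≤ n := by omega
  have hnl' : n ≤ l := by nlinarith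
  have hjJ : j ≤ J := by
    rw [hJ, Nat.le_div_iff_mul_le (by omega), hl]
    nlinarith
  obtain ⟨τ, ω, L⟩ := exists_lm h (fun p q => h.lcT p q) hm hN hA hK hs hd (l := l) (J := J)
    (by omega) (by omega) (by omega) (by omega) hJl
  have hlj : l - j = i := by omega
  -- the affine function
  obtain ⟨lam, hlam⟩ : ∃ lam : ℕ → ℝ, lam = fun j : ℕ => (l : ℝ) * D.φ 0 - (j : ℝ) * σ := ⟨_, rfl⟩
  have hlam' : ∀ j, j ≤ l → lam j = ((l - j : ℕ) : ℝ) * D.φ 0 + j * D.φ (D.s 0) := by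
    intro j hj
    rw [hlam, Nat.cast_sub hj, hσ]
    ring
  have hJJ : J ≤ l := by nlinarith
  have hJ2 : J + J ≤ l := by nlinarith
  have hα0 : (0 : ℝ) ≤ α := hα.le
  have hnN : 1 + Real.log N ≤ α * n := by
    have h1 : (n4 : ℝ) ≤ n := by exact_mod_cast (by omega : n4 ≤ n)
    rw [div_le_iff₀ hα] at hn4
    nlinarith
  -- the lower bound for `ω`, large distances
  have hbig : ∀ j, 2 * n ≤ j → j ≤ J → lam j - 5 * α ≤ ω j := by
    intro j hj2 hjJ'
    have hjl : j ≤ l := le_trans hjJ' hJJ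
    have hKj' : K * j ≤ l - j := by
      have : K * j + j ≤ l := by nlinarith
      omega
    have hjl2 : 1 ≤ l - j := by omega
    have s1 := L.sl j (by omega) hjJ' n j (by omega) (by omega)
    have s2 : -(2 * α * j) + j * lam j ≤ Real.log (D.F j (l - j) j) := by
      have e1 := hbase j (l - j) j (by omega) hKj' le_rfl
      have e2 : D.A 0 j (l - j) j ≤ D.F j (l - j) j := by
        rw [h.sum j (l - j) j (by omega) (by omega) (by omega)]
        exact Finset.single_le_sum (f := fun c => D.A c j (l - j) j)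
          (fun c hc => h.An c j (l - j) j (Finset.mem_range.mp hc) (by omega) (by omega) (by omega))
          (Finset.mem_range.mpr (by omega))
      have e3 := Real.log_le_log (by positivity) (e1.trans e2)
      rw [← Real.exp_add, Real.log_exp, ← hlam' j hjl] at e3
      exact e3
    have s3 : Real.log (D.F n (l - j) j) ≤ Real.log N + n * lam j + 1 := by
      have e1 := F_le h hN hs hd (q := n) (i := l - j) (j := j) (by omega) (by omega) (by omega)
        (by omega) (by omega) (by omega) hKj'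
      rw [← hlam' j hjl] at e1
      have e2 : er m (2 * (l - j)) n = Real.exp (-(2 * m * n)) := by
        unfold er
        rw [min_eq_right (by omega)]
      have e3 : er m (2 * j) n = Real.exp (-(2 * m * n)) := by
        unfold er
        rw [min_eq_right (by omega)]
      rw [e2, e3] at e1
      have e4 := hn2 n (by omega)
      have e5 : ((l - j : ℕ) : ℝ) + j = l := by
        rw [← Nat.cast_add]; congr 1; omega
      have e6 : (l : ℝ) + n ≤ ((n : ℝ) + 2) ^ 2 := by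
        have : l + n ≤ (n + 2) ^ 2 := by nlinarith
        exact_mod_cast this
      have e7 := mul_le_mul_of_nonneg_right e6 (Real.exp_pos (-(2 * m * n))).le
      have e8 : (2 * ((l - j : ℕ) : ℝ) + n) / 2 * Real.exp (-(2 * m * n)) +
          (2 * (j : ℝ) + n) / 2 * Real.exp (-(2 * m * n)) = (l + n) * Real.exp (-(2 * m * n)) := by
        rw [← e5]; ring
      linarith
    have hjn : (n : ℝ) ≤ (j : ℝ) - n := by
      have : 2 * (n : ℝ) ≤ j := by exact_mod_cast hj2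
      linarith
    have hn0 : (0 : ℝ) < n := by exact_mod_cast (by omega : 0 < n)
    have hpos : 0 < (j : ℝ) - n := by linarith
    have s4 : ((j : ℝ) - n) * (lam j - 5 * α) ≤ ((j : ℝ) - n) * ω j := by
      have f1 : α * n ≤ α * ((j : ℝ) - n) := mul_le_mul_of_nonneg_left hjn hα0
      nlinarith
    exact le_of_mul_le_mul_left s4 hpos
  -- the upper bound for `ω`, large distances
  have hup : ∀ j, j1 ≤ j → j ≤ J → ω j ≤ lam j + Real.exp (-(4 * m * j)) := by
    intro j hjj hjJ'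
    have hjl : j ≤ l := le_trans hjJ' hJJ
    have e1 := L.up j (by omega) hjJ' (by omega)
    rw [← hlam' j hjl] at e1
    have e2 : Real.exp (-(4 * m * ((l - j : ℕ) : ℝ))) ≤ Real.exp (-(4 * m * j)) := by
      refine Real.exp_le_exp.mpr ?_
      have : (j : ℝ) ≤ ((l - j : ℕ) : ℝ) := by
        have : K * j + j ≤ l := by nlinarith
        have h2 : j ≤ K * j := Nat.le_mul_of_pos_left j (by omega)
        exact_mod_cast (by omega : j ≤ l - j)
      nlinarith
    linarith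
  -- the lower bound for `ω`, all distances
  have hall : ∀ j, 1 ≤ j → j ≤ J → lam j - 5 * α - α / 2 ≤ ω j := by
    intro j hj1' hjJ'
    rcases Nat.lt_or_ge j (2 * n) with hlt | hge
    · have c1 := L.cv j (2 * n) J hj1' hlt.le hnJ le_rfl
      have c2 := hbig (2 * n) le_rfl hnJ
      have c3 := hup J (by omega) le_rfl
      have c4 : Real.exp (-(4 * m * J)) ≤ 1 := by
        rw [Real.exp_le_one_iff]
        have : (0 : ℝ) ≤ J := Nat.cast_nonneg _
        nlinarith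
      have r1 : (j : ℝ) ≤ 2 * n := by exact_mod_cast hlt.le
      have r0 : (0 : ℝ) ≤ j := Nat.cast_nonneg _
      have r2 : (B : ℝ) * n ≤ J := by exact_mod_cast hBn
      have hn0 : (0 : ℝ) < n := by exact_mod_cast (by omega : 0 < n)
      have r3 : (2 + 4 * (5 * α + 1) / α) * n ≤ J :=
        le_trans (mul_le_mul_of_nonneg_right hB hn0.le) r2
      have r4 : (5 * α + 1) * (2 * n) ≤ α / 2 * ((J : ℝ) - 2 * n) := by
        have e1 : 4 * (5 * α + 1) / α * n ≤ (J : ℝ) - 2 * n := by linarith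
        have e2 := mul_le_mul_of_nonneg_left e1 (by positivity : 0 ≤ α / 2)
        have e3 : α / 2 * (4 * (5 * α + 1) / α * n) = (5 * α + 1) * (2 * n) := by
          field_simp
          ring
        linarith
      have r5 : 0 < (J : ℝ) - 2 * n := by
        have : 0 < α / 2 * ((J : ℝ) - 2 * n) := lt_of_lt_of_le (by positivity) r4
        exact (mul_pos_iff_of_pos_left (by positivity)).mp this
      rw [hlam] at c2 c3 ⊢
      simp only at c2 c3 ⊢
      push_cast at c1 c2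
      have c5 : ω J ≤ (l : ℝ) * D.φ 0 - J * σ + 1 := by linarith
      have r6 : (0 : ℝ) ≤ (J : ℝ) - j := by linarith
      have r7 : (0 : ℝ) ≤ 2 * (n : ℝ) - j := by linarith
      have d1 := mul_le_mul_of_nonneg_left c2 r6
      have d2 := mul_le_mul_of_nonneg_left c5 r7
      have d3 : ((J : ℝ) - 2 * n) * ((l : ℝ) * D.φ 0 - j * σ - 5 * α - α / 2) ≤
          ((J : ℝ) - 2 * n) * ω j := by
        have d4 : (5 * α + 1) * (2 * (n : ℝ) - j) ≤ (5 * α + 1) * (2 * n) := by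
          refine mul_le_mul_of_nonneg_left (by linarith) (by positivity)
        nlinarith
      exact le_of_mul_le_mul_left d3 r5
    · have := hbig j hge hjJ'
      linarith
  refine ⟨τ - ω j, ?_, ?_, ?_⟩
  · have h1 := (L.tT.sub (L.tF j hj hjJ))
    rw [hlj] at h1
    refine h1.congr' ?_
    filter_upwards [eventually_ge_atTop (max A0 1)] with q hq
    have hq1 : 1 ≤ q := le_trans (le_max_right _ _) hq
    have hq2 : A0 ≤ q := le_trans (le_max_left _ _) hq
    have f1 := h.Fpos q i j hq1 (by omega) hj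
    have f2 := (T_pos h hN (p := l) (q := q) (by omega) hq1 (by omega) hq2).1
    rw [← hl, Real.log_div f1.ne' f2.ne']
    ring
  · rw [← hσ]
    have hj1J : j1 ≤ J := by omega
    have hexp : ∀ j', j1 ≤ j' → Real.exp (-(4 * m * j')) ≤ ε * σ := fun j' hj' =>
      hj0 j' (by omega)
    have hlow : ∀ j', j1 ≤ j' → j' ≤ J → (1 - ε) * (j' * σ) ≤ τ - ω j' := by
      intro j' h1 h2
      have e1 := hup j' h1 h2
      have e2 := hexp j' h1
      have e3 := L.tlo
      have e4 : (1 : ℝ) ≤ j' := by exact_mod_cast (by omega : 1 ≤ j')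
      rw [hlam] at e1
      simp only at e1
      have e5 : ε * σ ≤ ε * σ * j' := le_mul_of_one_le_right (by positivity) e4
      nlinarith
    rcases Nat.lt_or_ge j j1 with hlt | hge
    · have c1 := L.c0 j j1 hj hlt.le hj1J
      have c2 := hlow j1 le_rfl hj1J
      have r1 : (0 : ℝ) < j1 := by exact_mod_cast hj1c
      have r2 : (0 : ℝ) ≤ j := Nat.cast_nonneg _
      have c3 := mul_le_mul_of_nonneg_left c2 r2
      have c4 : (j1 : ℝ) * ((1 - ε) * (j * σ)) ≤ j1 * (τ - ω j) := by nlinarith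
      exact le_of_mul_le_mul_left c4 r1
    · exact hlow j hge hjJ
  · have e1 := hall j hj hjJ
    have e2 := L.tup
    have e3 : Real.exp (-(2 * m * l)) ≤ α / 2 := hn3 l (by omega)
    rw [hlam] at e1
    simp only at e1
    rw [← hσ]
    linarith

end Run7.h630.PC
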