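import Pool.Agent.Run7.h897.ST.PC

/-!
# PC1: traces of two semigroups and a multiplication operator
-/

set_option linter.unusedSectionVars false
set_option linter.unusedVariables false

open MeasureTheory Filter Topology
open scoped ComplexConjugate

namespace Run7.h630.PC

open Pool.Agent.Run7.h897.FS Pool.Agent.Run7.h897.PC

/-! ### log-convex sequences -/

theorem NL {a : ℕ → ℝ} {e : ℝ} {n0 : ℕ} (h0 : ∀ n, n0 ≤ n → 0 ≤ a n)
    (hlc : ∀ n, n0 ≤ n → a (n + 1) ^ 2 ≤ a n * a (n + 2))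
    (hg : ∃ C : ℝ, ∀ n : ℕ, n0 ≤ n → a n ≤ C * Real.exp (n * e)) :
    ∀ n, n0 ≤ n → ∀ t : ℕ, a (n + t) ≤ Real.exp (t * e) * a n := by
  have step : ∀ n, n0 ≤ n → a (n + 1) ≤ Real.exp e * a n := by
    intro n hn
    by_contra hc
    push Not at hc
    have han0 : a n ≠ 0 := by
      intro h
      have h1 := hlc n hn
      rw [h, zero_mul] at h1
      rw [h, mul_zero] at hc
      nlinarith
    have han : 0 < a n := lt_of_le_of_ne (h0 n hn) (Ne.symm han0)
    obtain ⟨q, hq⟩ : ∃ q, q = a (n + 1) / a n := ⟨_, rfl⟩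
    have hqe : Real.exp e < q := by rw [hq, lt_div_iff₀ han]; exact hc
    have hq0 : 0 < q := (Real.exp_pos e).trans hqe
    have hind : ∀ t : ℕ, 0 < a (n + t) ∧ q * a (n + t) ≤ a (n + t + 1) := by
      intro t
      induction t with
      | zero =>
        refine ⟨han, ?_⟩
        rw [add_zero, hq, div_mul_cancel₀ _ han0]
      | succ t ih =>
        obtain ⟨h1, h2⟩ := ih
        have h3 : 0 < a (n + t + 1) := lt_of_lt_of_le (mul_pos hq0 h1) h2
        refine ⟨h3, ?_⟩
        have h4 := hlc (n + t) (by omega)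
        have h5 : a (n + t) * (q * a (n + t + 1)) ≤ a (n + t) * a (n + t + 2) := by
          refine le_trans ?_ h4
          nlinarith
        exact le_of_mul_le_mul_left h5 h1
    have hpow : ∀ t : ℕ, q ^ t * a n ≤ a (n + t) := by
      intro t
      induction t with
      | zero => simp
      | succ t ih =>
        have := (hind t).2
        rw [pow_succ]
        calc q ^ t * q * a n = q * (q ^ t * a n) := by ring
          _ ≤ q * a (n + t) := mul_le_mul_of_nonneg_left ih hq0.le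
          _ ≤ a (n + t + 1) := this
    obtain ⟨C, hC⟩ := hg
    have hbd : ∀ t : ℕ, (q / Real.exp e) ^ t ≤ C * Real.exp (n * e) / a n := by
      intro t
      have h1 := (hpow t).trans (hC (n + t) (by omega))
      rw [div_pow, ← Real.exp_nat_mul, div_le_div_iff₀ (Real.exp_pos _) han]
      refine h1.trans (le_of_eq ?_)
      rw [mul_assoc, ← Real.exp_add]
      congr 2
      push_cast
      ring
    have hgt : 1 < q / Real.exp e := by rw [one_lt_div (Real.exp_pos e)]; exact hqe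
    have ht := tendsto_pow_atTop_atTop_of_one_lt hgt
    obtain ⟨t, ht'⟩ := (ht.eventually_gt_atTop (C * Real.exp (n * e) / a n)).exists
    exact absurd (hbd t) (not_le.mpr ht')
  intro n hn t
  induction t with
  | zero => simp
  | succ t ih =>
    have h1 := step (n + t) (by omega)
    calc a (n + t + 1) ≤ Real.exp e * a (n + t) := h1
      _ ≤ Real.exp e * (Real.exp (t * e) * a n) :=
        mul_le_mul_of_nonneg_left ih (Real.exp_pos e).le
      _ = Real.exp ((t + 1 : ℕ) * e) * a n := by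
        rw [← mul_assoc, ← Real.exp_add]
        congr 2
        push_cast
        ring

theorem TS0.grow {E : ℕ → ℝ} (h : TS0 E) :
    ∀ n : ℕ, 1 ≤ n → E n ≤ E 1 * Real.exp (-ell E) * Real.exp (n * ell E) := by
  intro n hn
  obtain ⟨m, rfl⟩ : ∃ m, n = 1 + m := ⟨n - 1, by omega⟩
  have h1 := h.step (le_refl 1) m
  have h2 := h.pos 1 le_rfl
  have h3 := h.pos (1 + m) (by omega)
  calc E (1 + m) = Real.exp (Real.log (E (1 + m))) := (Real.exp_log h3).symm
    _ ≤ Real.exp (Real.log (E 1) + m * ell E) := Real.exp_le_exp.mpr h1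
    _ = _ := by
      rw [Real.exp_add, Real.exp_log h2, mul_assoc, ← Real.exp_add]
      congr 2
      push_cast
      ring

/-- a quadratic polynomial without negative values -/
theorem disc {a b c : ℝ} (h : ∀ s : ℝ, 0 ≤ a + 2 * s * b + s ^ 2 * c) : b ^ 2 ≤ a * c := by
  have h1 : ∀ s : ℝ, 0 ≤ c * (s * s) + (2 * b) * s + a := fun s => by
    have := h s; nlinarith
  have h2 := discrim_le_zero h1
  unfold discrim at h2
  nlinarith

section

variable {X : Type*} [MeasurableSpace X] {μ : Measure X} [IsProbabilityMeasure μ]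
  {k : ℕ → X → X → ℂ}

theorem BC.conj {Y : Type*} [MeasurableSpace Y] {f : Y → ℂ} (hf : BC f) :
    BC fun x => conj (f x) := by
  obtain ⟨h1, C, hC⟩ := hf
  exact ⟨Complex.continuous_conj.measurable.comp h1, C, fun x => by
    rw [Complex.norm_conj]; exact hC x⟩

/-- the form of a kernel -/
noncomputable def Qf (μ : Measure X) (κ : X → X → ℂ) (f g : X → ℂ) : ℂ :=
  ∫ w : X × X, conj (f w.1) * κ w.1 w.2 * g w.2 ∂(μ.prod μ)

/-- the scalar product -/
noncomputable def Ip (μ : Measure X) (f g : X → ℂ) : ℂ := ∫ x, conj (f x) * g x ∂μ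

theorem Ip_self {f : X → ℂ} : Ip μ f f = ((∫ x, ‖f x‖ ^ 2 ∂μ : ℝ) : ℂ) := by
  unfold Ip
  rw [← integral_complex_ofReal]
  congr 1
  funext x
  rw [← Complex.normSq_eq_conj_mul_self, Complex.normSq_eq_norm_sq]

theorem Qb {κ : X → X → ℂ} {f g : X → ℂ} (hκ : BC (Function.uncurry κ)) (hf : BC f) (hg : BC g) :
    BC fun w : X × X => conj (f w.1) * κ w.1 w.2 * g w.2 :=
  (((BC.conj hf).comp measurable_fst).mul hκ).mul (hg.comp measurable_snd)

theorem BC.rs {Y : Type*} [MeasurableSpace Y] {f g : Y → ℂ} (hf : BC f) (hg : BC g) (s : ℝ) :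
    BC fun x => f x + s * g x :=
  hf.add ((BC.const (s : ℂ)).mul hg)

theorem int4 {Y : Type*} [MeasurableSpace Y] {ν : Measure Y} [IsProbabilityMeasure ν]
    {A B C D : Y → ℂ} (hA : BC A) (hB : BC B) (hC : BC C) (hD : BC D) (c d : ℂ) :
    ∫ w, (A w + c * (B w + C w) + d * D w) ∂ν =
      ∫ w, A w ∂ν + c * (∫ w, B w ∂ν + ∫ w, C w ∂ν) + d * ∫ w, D w ∂ν := by
  have i1 : Integrable (fun w => c * (B w + C w)) ν := ((hB.add hC).int).const_mul c
  have i2 : Integrable (fun w => d * D w) ν := hD.int.const_mul d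
  have i3 : Integrable (fun w => A w + c * (B w + C w)) ν := hA.int.add i1
  rw [integral_add i3 i2, integral_add hA.int i1, integral_const_mul, integral_const_mul,
    integral_add hB.int hC.int]

theorem Qf_exp {κ : X → X → ℂ} {f g : X → ℂ} (hκ : BC (Function.uncurry κ)) (hf : BC f)
    (hg : BC g) (s : ℝ) :
    Qf μ κ (fun x => f x + s * g x) (fun x => f x + s * g x) =
      Qf μ κ f f + s * (Qf μ κ f g + Qf μ κ g f) + (s : ℂ) ^ 2 * Qf μ κ g g := by
  have h := int4 (ν := μ.prod μ) (Qb hκ hf hf) (Qb hκ hf hg) (Qb hκ hg hf) (Qb hκ hg hg) (s : ℂ)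
    ((s : ℂ) ^ 2)
  unfold Qf
  rw [← h]
  congr 1
  funext w
  simp only [map_add, map_mul, Complex.conj_ofReal]
  ring

theorem Ip_exp {f g : X → ℂ} (hf : BC f) (hg : BC g) (s : ℝ) :
    Ip μ (fun x => f x + s * g x) (fun x => f x + s * g x) =
      Ip μ f f + s * (Ip μ f g + Ip μ g f) + (s : ℂ) ^ 2 * Ip μ g g := by
  have h := int4 (ν := μ) ((BC.conj hf).mul hf) ((BC.conj hf).mul hg) ((BC.conj hg).mul hf)
    ((BC.conj hg).mul hg) (s : ℂ) ((s : ℂ) ^ 2)
  unfold Ip
  rw [← h]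
  congr 1
  funext w
  simp only [map_add, map_mul, Complex.conj_ofReal]
  ring

theorem Ip_conj (f g : X → ℂ) : conj (Ip μ f g) = Ip μ g f := by
  unfold Ip
  rw [← integral_conj]
  congr 1
  funext x
  rw [map_mul, Complex.conj_conj, mul_comm]

/-- application of a kernel -/
noncomputable def Ap (μ : Measure X) (κ : X → X → ℂ) (g : X → ℂ) (x : X) : ℂ :=
  ∫ y, κ x y * g y ∂μ

theorem Ap_bc {κ : X → X → ℂ} {g : X → ℂ} (hκ : BC (Function.uncurry κ)) (hg : BC g) :
    BC (Ap μ κ g) := (hκ.mul (hg.comp measurable_snd)).intg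

theorem Ip_Ap0 {κ : X → X → ℂ} {g : X → ℂ} (hκ : BC (Function.uncurry κ)) (hg : BC g) :
    Ip μ g (Ap μ κ g) = Qf μ κ g g := by
  unfold Ip Ap Qf
  rw [cfub (Qb hκ hg hg)]
  congr 1
  funext x
  rw [← integral_const_mul]
  congr 1
  funext y
  ring

theorem Ip_Ap (h : KC μ k) {m n : ℕ} (hm : 1 ≤ m) (hn : 1 ≤ n) {g : X → ℂ} (hg : BC g) :
    Ip μ (Ap μ (k m) g) (Ap μ (k n) g) = Qf μ (k (m + n)) g g := by
  unfold Ip Ap Qf
  have e1 : ∀ u : X, conj (∫ y, k m u y * g y ∂μ) * ∫ y, k n u y * g y ∂μ =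
      ∫ w : X × X, (conj (k m u w.1 * g w.1)) * (k n u w.2 * g w.2) ∂(μ.prod μ) := by
    intro u
    rw [cprod2 (BC.conj ((h.bl hm u).mul hg)) ((h.bl hn u).mul hg), ← integral_conj]
  simp only [e1]
  have hb : BC (Function.uncurry fun (u : X) (w : X × X) =>
      (conj (k m u w.1 * g w.1)) * (k n u w.2 * g w.2)) := by
    have b1 : BC fun z : X × (X × X) => k m z.1 z.2.1 :=
      (h.bm m hm).comp (measurable_fst.prodMk measurable_snd.fst)
    have b2 : BC fun z : X × (X × X) => k n z.1 z.2.2 :=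
      (h.bm n hn).comp (measurable_fst.prodMk measurable_snd.snd)
    have b3 : BC fun z : X × (X × X) => g z.2.1 := hg.comp measurable_snd.fst
    have b4 : BC fun z : X × (X × X) => g z.2.2 := hg.comp measurable_snd.snd
    exact (BC.conj (b1.mul b3)).mul (b2.mul b4)
  rw [cswp hb]
  congr 1
  funext w
  rw [h.semi m n hm hn w.1 w.2, ← integral_const_mul, ← integral_mul_const]
  congr 1
  funext u
  rw [h.herm m hm w.1 u, map_mul]
  ring

/-- the bound for the norm of the operator -/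
theorem NB (h : KC μ k) (hp : ∀ n, 1 ≤ n → 0 < EC μ k n) {g : X → ℂ} (hg : BC g) {i : ℕ}
    (hi : 1 ≤ i) : (Qf μ (k (2 * i)) g g).re ≤ Real.exp (i * ell (EC μ k)) *
      ∫ x, ‖g x‖ ^ 2 ∂μ := by
  obtain ⟨V, hV⟩ : ∃ V : ℕ → X → ℂ, V = fun n => if n = 0 then g else Ap μ (k n) g := ⟨_, rfl⟩
  obtain ⟨A, hA⟩ : ∃ A : ℕ → ℝ, A = fun M => if M = 0 then ∫ x, ‖g x‖ ^ 2 ∂μ else
    (Qf μ (k M) g g).re := ⟨_, rfl⟩
  have hVb : ∀ n, BC (V n) := by
    intro n
    rw [hV]
    simp only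
    split_ifs with h0
    · exact hg
    · exact Ap_bc (h.bm n (by omega)) hg
  have hVV : ∀ m n, (Ip μ (V m) (V n)).re = A (m + n) := by
    intro m n
    rw [hV, hA]
    simp only
    by_cases hm : m = 0
    · by_cases hn : n = 0
      · rw [if_pos hm, if_pos hn, if_pos (by omega), Ip_self, Complex.ofReal_re]
      · rw [if_pos hm, if_neg hn, if_neg (by omega), Ip_Ap0 (h.bm n (by omega)) hg, hm, zero_add]
    · by_cases hn : n = 0
      · rw [if_neg hm, if_pos hn, if_neg (by omega), ← Ip_conj, Ip_Ap0 (h.bm m (by omega)) hg, hn,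
          add_zero, Complex.conj_re]
      · rw [if_neg hm, if_neg hn, if_neg (by omega), Ip_Ap h (by omega) (by omega) hg]
  have hlc : ∀ n, A (2 * (n + 1)) ^ 2 ≤ A (2 * n) * A (2 * (n + 2)) := by
    intro n
    refine disc fun s => ?_
    have h1 : 0 ≤ (Ip μ (fun x => V n x + s * V (n + 2) x) (fun x => V n x + s * V (n + 2) x)).re := by
      rw [Ip_self, Complex.ofReal_re]
      exact integral_nonneg fun x => sq_nonneg _
    rw [Ip_exp (hVb n) (hVb (n + 2)) s] at h1
    have e2 : ((s : ℂ) ^ 2) = ((s ^ 2 : ℝ) : ℂ) := by push_cast; ring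
    rw [Complex.add_re, Complex.add_re, Complex.re_ofReal_mul, Complex.add_re, e2,
      Complex.re_ofReal_mul, hVV, hVV, hVV, hVV] at h1
    rw [show 2 * n = n + n by ring, show 2 * (n + 1) = n + (n + 2) by ring,
      show 2 * (n + 2) = n + 2 + (n + 2) by ring]
    rw [show n + 2 + n = n + (n + 2) by ring] at h1
    linarith
  have hA0 : ∀ n, 0 ≤ A (2 * n) := by
    intro n
    rw [two_mul, ← hVV, Ip_self, Complex.ofReal_re]
    exact integral_nonneg fun x => sq_nonneg _
  obtain ⟨G, hG⟩ : ∃ G, G = ∫ x, ‖g x‖ ^ 2 ∂μ := ⟨_, rfl⟩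
  have hG0 : 0 ≤ G := by rw [hG]; exact integral_nonneg fun x => sq_nonneg _
  have hts := (h.ts hp).toTS0
  obtain ⟨C1, hC1⟩ : ∃ C1, C1 = EC μ k 1 * Real.exp (-ell (EC μ k)) := ⟨_, rfl⟩
  have hC10 : 0 ≤ C1 := by rw [hC1]; have := hp 1 le_rfl; positivity
  have hgrow : ∀ n : ℕ, 0 ≤ n → A (2 * n) ≤ G * (1 + Real.sqrt C1) * Real.exp (n * ell (EC μ k)) := by
    intro n _
    rcases Nat.eq_zero_or_pos n with h0 | h0
    · subst h0
      rw [hA]
      simp only [mul_zero, if_true, Nat.cast_zero, zero_mul, Real.exp_zero, mul_one]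
      rw [← hG]
      nlinarith [mul_nonneg hG0 (Real.sqrt_nonneg C1)]
    · rw [hA]
      simp only
      rw [if_neg (by omega)]
      have b1 : BC fun w : X × X => conj (g w.1) * g w.2 :=
        ((BC.conj hg).comp measurable_fst).mul (hg.comp measurable_snd)
      have b2 : BC fun w : X × X => k (2 * n) w.1 w.2 := h.bm (2 * n) (by omega)
      have h1 := cschwarz (μ := μ.prod μ) b1 b2
      have h2 : ∫ w : X × X, conj (g w.1) * g w.2 * k (2 * n) w.1 w.2 ∂(μ.prod μ) =
          Qf μ (k (2 * n)) g g := by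
        unfold Qf
        congr 1
        funext w
        ring
      have h3 : ∫ w : X × X, ‖conj (g w.1) * g w.2‖ ^ 2 ∂(μ.prod μ) = G * G := by
        rw [hG]
        have : ∀ w : X × X, ‖conj (g w.1) * g w.2‖ ^ 2 = ‖g w.1‖ ^ 2 * ‖g w.2‖ ^ 2 := by
          intro w
          rw [norm_mul, Complex.norm_conj, mul_pow]
        simp only [this]
        exact integral_prod_mul (fun x => ‖g x‖ ^ 2) (fun x => ‖g x‖ ^ 2)
      rw [h2, h3, ← h.EC_prod (n := 2 * n) (by omega)] at h1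
      have h4 := TS0.grow hts (2 * n) (by omega)
      rw [← hC1] at h4
      have h5 : (Qf μ (k (2 * n)) g g).re ^ 2 ≤ (G * Real.sqrt C1 * Real.exp (n * ell (EC μ k))) ^ 2 := by
        have h6 : (Qf μ (k (2 * n)) g g).re ^ 2 ≤ ‖Qf μ (k (2 * n)) g g‖ ^ 2 := by
          rw [← sq_abs (Qf μ (k (2 * n)) g g).re]
          exact pow_le_pow_left₀ (abs_nonneg _) (Complex.abs_re_le_norm _) 2
        have h7 : (G * Real.sqrt C1 * Real.exp (n * ell (EC μ k))) ^ 2 =
            G * G * (C1 * Real.exp ((2 * n : ℕ) * ell (EC μ k))) := by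
          rw [mul_pow, mul_pow, Real.sq_sqrt hC10, ← Real.exp_nat_mul]
          push_cast
          ring_nf
        rw [h7]
        exact h6.trans (h1.trans (mul_le_mul_of_nonneg_left h4 (by positivity)))
      have h8 := abs_le_of_sq_le_sq h5 (by positivity)
      refine ((le_abs_self _).trans h8).trans ?_
      have h9 : 0 ≤ G * Real.exp (n * ell (EC μ k)) := by positivity
      nlinarith
  have hfin := NL (a := fun n => A (2 * n)) (e := ell (EC μ k)) (n0 := 0) (fun n _ => hA0 n)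
    (fun n _ => hlc n) ⟨_, hgrow⟩ 0 le_rfl i
  simp only [zero_add, mul_zero] at hfin
  rw [hA] at hfin
  simp only [if_true] at hfin
  rw [if_neg (by omega)] at hfin
  exact hfin

theorem Qf_nonneg (h : KC μ k) {g : X → ℂ} (hg : BC g) {i : ℕ} (hi : 1 ≤ i) :
    0 ≤ (Qf μ (k (2 * i)) g g).re := by
  rw [two_mul, ← Ip_Ap h hi hi hg, Ip_self, Complex.ofReal_re]
  exact integral_nonneg fun x => sq_nonneg _

/-- the complex trace -/
noncomputable def TT (μ : Measure X) (k k' : ℕ → X → X → ℂ) (p : X → ℂ) (I J : ℕ) : ℂ :=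
  ∫ w : X × X, p w.1 * k I w.1 w.2 * conj (p w.2) * k' J w.2 w.1 ∂(μ.prod μ)

variable {k' : ℕ → X → X → ℂ} {p : X → ℂ}

theorem TT_bc (h : KC μ k) (h' : KC μ k') (hp : BC p) {I J : ℕ} (hI : 1 ≤ I) (hJ : 1 ≤ J) :
    BC fun w : X × X => p w.1 * k I w.1 w.2 * conj (p w.2) * k' J w.2 w.1 :=
  (((hp.comp measurable_fst).mul (h.bm I hI)).mul ((BC.conj hp).comp measurable_snd)).mul
    ((h'.bm J hJ).comp (measurable_snd.prodMk measurable_fst))

theorem AA_TT (h : KC μ k) (h' : KC μ k') (hp : BC p) {i j : ℕ} (hi : 1 ≤ i) (hj : 1 ≤ j) :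
    AA μ k k' p i j = (TT μ k k' p (2 * i) (2 * j)).re := by
  unfold AA TT
  rw [cfub (TT_bc h h' hp (by omega) (by omega))]

/-- the form in the column `x` -/
noncomputable def VV (μ : Measure X) (k k' : ℕ → X → X → ℂ) (p : X → ℂ) (I m n : ℕ) (x : X) : ℂ :=
  ∫ w : X × X, conj (conj (p w.1) * k' m w.1 x) * k I w.1 w.2 * (conj (p w.2) * k' n w.2 x)
    ∂(μ.prod μ)

theorem VV_b (h : KC μ k) (h' : KC μ k') (hp : BC p) {I m n : ℕ} (hI : 1 ≤ I) (hm : 1 ≤ m)
    (hn : 1 ≤ n) : BC (Function.uncurry fun (x : X) (w : X × X) =>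
      conj (conj (p w.1) * k' m w.1 x) * k I w.1 w.2 * (conj (p w.2) * k' n w.2 x)) := by
  have b1 : BC fun z : X × (X × X) => k' m z.2.1 z.1 :=
    (h'.bm m hm).comp (measurable_snd.fst.prodMk measurable_fst)
  have b2 : BC fun z : X × (X × X) => k' n z.2.2 z.1 :=
    (h'.bm n hn).comp (measurable_snd.snd.prodMk measurable_fst)
  have b3 : BC fun z : X × (X × X) => conj (p z.2.1) := (BC.conj hp).comp measurable_snd.fst
  have b4 : BC fun z : X × (X × X) => conj (p z.2.2) := (BC.conj hp).comp measurable_snd.snd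
  have b5 : BC fun z : X × (X × X) => k I z.2.1 z.2.2 :=
    (h.bm I hI).comp (measurable_snd.fst.prodMk measurable_snd.snd)
  exact ((BC.conj (b3.mul b1)).mul b5).mul (b4.mul b2)

theorem VV_bc (h : KC μ k) (h' : KC μ k') (hp : BC p) {I m n : ℕ} (hI : 1 ≤ I) (hm : 1 ≤ m)
    (hn : 1 ≤ n) : BC (VV μ k k' p I m n) :=
  (VV_b (μ := μ) h h' hp hI hm hn).intg

theorem VV_int (h : KC μ k) (h' : KC μ k') (hp : BC p) {I m n : ℕ} (hI : 1 ≤ I) (hm : 1 ≤ m)
    (hn : 1 ≤ n) : ∫ x, VV μ k k' p I m n x ∂μ = TT μ k k' p I (m + n) := by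
  unfold VV TT
  rw [cswp (VV_b (μ := μ) h h' hp hI hm hn)]
  congr 1
  funext w
  rw [add_comm m n, h'.semi n m hn hm w.2 w.1, ← integral_const_mul]
  congr 1
  funext x
  rw [h'.herm m hm x w.1, map_mul, Complex.conj_conj]
  ring

theorem AA_nonneg (h : KC μ k) (h' : KC μ k') (hp : BC p) {i j : ℕ} (hi : 1 ≤ i) (hj : 1 ≤ j) :
    0 ≤ AA μ k k' p i j := by
  rw [AA_TT h h' hp hi hj, two_mul j, ← VV_int h h' hp (by omega) hj hj,
    re_int (VV_bc h h' hp (by omega) hj hj)]
  refine integral_nonneg fun x => ?_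
  exact Qf_nonneg h ((BC.conj hp).mul (h'.br hj x)) hi

theorem AA_sq (h : KC μ k) (h' : KC μ k') (hp : BC p) (hp1 : ∀ x, ‖p x‖ ≤ 1) {i j : ℕ}
    (hi : 1 ≤ i) (hj : 1 ≤ j) : AA μ k k' p i j ^ 2 ≤ EC μ k (2 * i) * EC μ k' (2 * j) := by
  rw [AA_TT h h' hp hi hj]
  have b1 : BC fun w : X × X => p w.1 * k (2 * i) w.1 w.2 * conj (p w.2) :=
    ((hp.comp measurable_fst).mul (h.bm (2 * i) (by omega))).mul ((BC.conj hp).comp measurable_snd)
  have b2 : BC fun w : X × X => k' (2 * j) w.2 w.1 :=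
    (h'.bm (2 * j) (by omega)).comp (measurable_snd.prodMk measurable_fst)
  have h1 := cschwarz (μ := μ.prod μ) b1 b2
  have h2 : ∫ w : X × X, ‖p w.1 * k (2 * i) w.1 w.2 * conj (p w.2)‖ ^ 2 ∂(μ.prod μ) ≤
      EC μ k (2 * i) := by
    rw [h.EC_prod (by omega)]
    refine integral_mono (b1.norm.pow 2).int ((h.nb (n := 2 * i) (by omega)).pow 2).int
      fun w => ?_
    refine pow_le_pow_left₀ (norm_nonneg _) ?_ 2
    rw [norm_mul, norm_mul, Complex.norm_conj]
    have e1 := hp1 w.1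
    have e2 := hp1 w.2
    have e3 := norm_nonneg (k (2 * i) w.1 w.2)
    have e4 := norm_nonneg (p w.1)
    have e5 := norm_nonneg (p w.2)
    calc ‖p w.1‖ * ‖k (2 * i) w.1 w.2‖ * ‖p w.2‖ ≤ 1 * ‖k (2 * i) w.1 w.2‖ * 1 := by gcongr
      _ = _ := by ring
  have h3 : ∫ w : X × X, ‖k' (2 * j) w.2 w.1‖ ^ 2 ∂(μ.prod μ) = EC μ k' (2 * j) := by
    rw [h'.EC_prod (by omega)]
    congr 1
    funext w
    rw [h'.nsymm (by omega)]
  rw [h3] at h1
  have h4 : (TT μ k k' p (2 * i) (2 * j)).re ^ 2 ≤ ‖TT μ k k' p (2 * i) (2 * j)‖ ^ 2 := by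
    rw [← sq_abs (TT μ k k' p (2 * i) (2 * j)).re]
    exact pow_le_pow_left₀ (abs_nonneg _) (Complex.abs_re_le_norm _) 2
  exact h4.trans (h1.trans (mul_le_mul_of_nonneg_right h2 (EC_nonneg _)))

theorem AA_swap (h : KC μ k) (h' : KC μ k') (hp : BC p) {i j : ℕ} (hi : 1 ≤ i) (hj : 1 ≤ j) :
    AA μ k k' p i j = AA μ k' k (fun x => conj (p x)) j i := by
  unfold AA
  congr 1
  have hb : BC (Function.uncurry fun (x y : X) =>
      p x * k (2 * i) x y * conj (p y) * k' (2 * j) y x) :=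
    TT_bc h h' hp (I := 2 * i) (J := 2 * j) (by omega) (by omega)
  rw [cswp hb]
  congr 1
  funext x
  congr 1
  funext y
  rw [Complex.conj_conj]
  ring

/-- the main estimate -/
theorem AA_main (h : KC μ k) (h' : KC μ k') (hp : BC p) (hp1 : ∀ x, ‖p x‖ ≤ 1)
    (hE : ∀ n, 1 ≤ n → 0 < EC μ k n) (hE' : ∀ n, 1 ≤ n → 0 < EC μ k' n) {i j : ℕ}
    (hi : 1 ≤ i) (hj : 1 ≤ j) (t : ℕ) : AA μ k k' p i j -
        Real.exp (i * ell (EC μ k)) * (EC μ k' j - Real.exp (j * ell (EC μ k'))) ≤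
      AA μ k k' p i (j + t) * Real.exp (-(t * ell (EC μ k'))) := by
  obtain ⟨c, hc⟩ : ∃ c, c = Real.exp (i * ell (EC μ k)) := ⟨_, rfl⟩
  have hc0 : 0 < c := by rw [hc]; exact Real.exp_pos _
  rw [← hc]
  obtain ⟨b, hb⟩ : ∃ b : ℕ → ℝ, b = fun M => c * EC μ k' M - AA μ k k' p i M := ⟨_, rfl⟩
  -- the complex version
  obtain ⟨W, hW⟩ : ∃ W : ℕ → ℕ → X → ℂ, W = fun m n x => (c : ℂ) * k' (m + n) x x -
    VV μ k k' p (2 * i) m n x := ⟨_, rfl⟩
  have hdiag : ∀ M, 1 ≤ M → BC fun x => k' M x x := fun M hM =>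
    (h'.bm M hM).comp (measurable_id.prodMk measurable_id)
  have hWb : ∀ m n, 1 ≤ m → 1 ≤ n → BC (W m n) := by
    intro m n hm hn
    rw [hW]
    have b1 := (BC.const (c : ℂ)).mul (hdiag (m + n) (by omega))
    have b2 := (BC.const (-1 : ℂ)).mul (VV_bc h h' hp (I := 2 * i) (by omega) hm hn)
    have := b1.add b2
    refine (congrArg BC ?_).mp this
    funext x
    ring
  have hWi : ∀ m n M, 1 ≤ m → 1 ≤ n → m + n = 2 * M → (∫ x, W m n x ∂μ).re = b M := by
    intro m n M hm hn hM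
    have i1 : Integrable (fun x => (c : ℂ) * k' (m + n) x x) μ :=
      ((hdiag (m + n) (by omega)).int).const_mul _
    have i2 := (VV_bc h h' hp (I := 2 * i) (by omega) hm hn).int (μ := μ)
    rw [hW, hb]
    simp only
    rw [integral_sub i1 i2, integral_const_mul, VV_int h h' hp (by omega) hm hn, hM,
      Complex.sub_re, Complex.re_ofReal_mul, ← AA_TT h h' hp hi (by omega), two_mul M,
      ← h'.EC_diagC (by omega), Complex.ofReal_re]
  have hpos : ∀ M, 1 ≤ M → ∀ s : ℝ, 0 ≤ b M + 2 * s * b (M + 1) + s ^ 2 * b (M + 2) := by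
    intro M hM s
    have hpt : ∀ x, 0 ≤ (W M M x + s * (W M (M + 2) x + W (M + 2) M x) +
        (s : ℂ) ^ 2 * W (M + 2) (M + 2) x).re := by
      intro x
      have bf : BC fun y => k' M y x := h'.br hM x
      have bg : BC fun y => k' (M + 2) y x := h'.br (n := M + 2) (by omega) x
      have bpf : BC fun y => conj (p y) * k' M y x := (BC.conj hp).mul bf
      have bpg : BC fun y => conj (p y) * k' (M + 2) y x := (BC.conj hp).mul bg
      have hκ := h.bm (2 * i) (by omega)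
      have q1 := Qf_exp (μ := μ) hκ bpf bpg s
      have q2 := Ip_exp (μ := μ) bf bg s
      have q3 := NB h hE (g := fun y => conj (p y) * k' M y x + s * (conj (p y) * k' (M + 2) y x))
        (BC.rs bpf bpg s) hi
      rw [← hc] at q3
      have bfg := (BC.rs bf bg s)
      have q4 : ∫ y, ‖conj (p y) * k' M y x + s * (conj (p y) * k' (M + 2) y x)‖ ^ 2 ∂μ ≤
          ∫ y, ‖k' M y x + s * k' (M + 2) y x‖ ^ 2 ∂μ := by
        refine integral_mono ((BC.rs bpf bpg s).norm.pow 2).int (bfg.norm.pow 2).int fun y => ?_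
        refine pow_le_pow_left₀ (norm_nonneg _) ?_ 2
        have e1 : conj (p y) * k' M y x + s * (conj (p y) * k' (M + 2) y x) =
            conj (p y) * (k' M y x + s * k' (M + 2) y x) := by ring
        rw [e1, norm_mul, Complex.norm_conj]
        exact mul_le_of_le_one_left (norm_nonneg _) (hp1 y)
      have hU : ∀ m n, 1 ≤ m → 1 ≤ n → Ip μ (fun y => k' m y x) (fun y => k' n y x) =
          k' (m + n) x x := by
        intro m n hm hn
        unfold Ip
        rw [h'.semi m n hm hn x x]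
        congr 1
        funext y
        rw [← h'.herm m hm x y]
      have hV : ∀ m n, Qf μ (k (2 * i)) (fun y => conj (p y) * k' m y x)
          (fun y => conj (p y) * k' n y x) = VV μ k k' p (2 * i) m n x := fun m n => rfl
      rw [hV, hV, hV, hV] at q1
      rw [hU M M hM hM, hU M (M + 2) hM (by omega), hU (M + 2) M (by omega) hM,
        hU (M + 2) (M + 2) (by omega) (by omega), Ip_self] at q2
      have q5 : W M M x + s * (W M (M + 2) x + W (M + 2) M x) +
          (s : ℂ) ^ 2 * W (M + 2) (M + 2) x =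
          (c : ℂ) * ((∫ y, ‖k' M y x + s * k' (M + 2) y x‖ ^ 2 ∂μ : ℝ) : ℂ) -
          Qf μ (k (2 * i)) (fun y => conj (p y) * k' M y x + s * (conj (p y) * k' (M + 2) y x))
            (fun y => conj (p y) * k' M y x + s * (conj (p y) * k' (M + 2) y x)) := by
        rw [q1, q2, hW]
        ring
      rw [q5, Complex.sub_re, Complex.re_ofReal_mul, Complex.ofReal_re]
      have q6 := mul_le_mul_of_nonneg_left q4 hc0.le
      linarith
    have b1 := hWb M M hM hM
    have b2 := hWb M (M + 2) hM (by omega)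
    have b3 := hWb (M + 2) M (by omega) hM
    have b4 := hWb (M + 2) (M + 2) (by omega) (by omega)
    have hint := int4 (ν := μ) b1 b2 b3 b4 (s : ℂ) ((s : ℂ) ^ 2)
    have hbc : BC fun x => W M M x + s * (W M (M + 2) x + W (M + 2) M x) +
        (s : ℂ) ^ 2 * W (M + 2) (M + 2) x :=
      (b1.add ((BC.const (s : ℂ)).mul (b2.add b3))).add ((BC.const ((s : ℂ) ^ 2)).mul b4)
    have h1 : 0 ≤ (∫ x, (W M M x + s * (W M (M + 2) x + W (M + 2) M x) +
        (s : ℂ) ^ 2 * W (M + 2) (M + 2) x) ∂μ).re := by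
      rw [re_int hbc]
      exact integral_nonneg hpt
    have e2 : ((s : ℂ) ^ 2) = ((s ^ 2 : ℝ) : ℂ) := by push_cast; ring
    rw [hint, Complex.add_re, Complex.add_re, Complex.re_ofReal_mul, Complex.add_re, e2,
      Complex.re_ofReal_mul, hWi M M M hM hM (by omega), hWi M (M + 2) (M + 1) hM (by omega)
      (by omega), hWi (M + 2) M (M + 1) (by omega) hM (by omega),
      hWi (M + 2) (M + 2) (M + 2) (by omega) (by omega) (by omega)] at h1
    linarith
  have hts := (h'.ts hE').toTS0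
  have hgrow : ∀ n : ℕ, 1 ≤ n → b n ≤ c * (EC μ k' 1 * Real.exp (-ell (EC μ k'))) *
      Real.exp (n * ell (EC μ k')) := by
    intro n hn
    have h1 := TS0.grow hts n hn
    have h2 := AA_nonneg h h' hp hi hn
    have h3 := mul_le_mul_of_nonneg_left h1 hc0.le
    rw [hb]
    simp only
    calc c * EC μ k' n - AA μ k k' p i n ≤ c * EC μ k' n := by linarith
      _ ≤ _ := by rw [mul_assoc]; exact h3
  have hfin := NL (a := b) (e := ell (EC μ k')) (n0 := 1)
    (fun n hn => by have := hpos n hn 0; linarith)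
    (fun n hn => disc (hpos n hn)) ⟨_, hgrow⟩ j hj t
  rw [hb] at hfin
  simp only at hfin
  -- conclusion
  have hex : Real.exp (t * ell (EC μ k')) * Real.exp (-(t * ell (EC μ k'))) = 1 := by
    rw [← Real.exp_add, add_neg_cancel, Real.exp_zero]
  have hge : Real.exp ((j + t : ℕ) * ell (EC μ k')) ≤ EC μ k' (j + t) := by
    have h1 := hts.ell_le (n := j + t) (by omega)
    calc Real.exp ((j + t : ℕ) * ell (EC μ k')) ≤ Real.exp (Real.log (EC μ k' (j + t))) :=
        Real.exp_le_exp.mpr h1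
      _ = _ := Real.exp_log (hE' _ (by omega))
  have hsplit : Real.exp ((j + t : ℕ) * ell (EC μ k')) =
      Real.exp (t * ell (EC μ k')) * Real.exp (j * ell (EC μ k')) := by
    rw [← Real.exp_add]; congr 1; push_cast; ring
  rw [hsplit] at hge
  have hx0 : 0 < Real.exp (-(t * ell (EC μ k'))) := Real.exp_pos _
  obtain ⟨u, hu⟩ : ∃ u, u = Real.exp (-(t * ell (EC μ k'))) := ⟨_, rfl⟩
  obtain ⟨v, hv⟩ : ∃ v, v = Real.exp (t * ell (EC μ k')) := ⟨_, rfl⟩
  rw [← hu] at hex hx0 ⊢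
  rw [← hv] at hex hge hfin
  have f1 := mul_le_mul_of_nonneg_right hfin hx0.le
  have f2 := mul_le_mul_of_nonneg_left (mul_le_mul_of_nonneg_right hge hx0.le) hc0.le
  have g1 : v * (c * EC μ k' j - AA μ k k' p i j) * u = c * EC μ k' j - AA μ k k' p i j := by
    calc v * (c * EC μ k' j - AA μ k k' p i j) * u =
        (v * u) * (c * EC μ k' j - AA μ k k' p i j) := by ring
      _ = _ := by rw [hex, one_mul]
  have g2 : c * (v * Real.exp (j * ell (EC μ k')) * u) = c * Real.exp (j * ell (EC μ k')) := by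
    calc c * (v * Real.exp (j * ell (EC μ k')) * u) =
        (v * u) * (c * Real.exp (j * ell (EC μ k'))) := by ring
      _ = _ := by rw [hex, one_mul]
  rw [g1] at f1
  rw [g2] at f2
  nlinarith

end

theorem tPC1 : S_PC1 := by
  intro X _ μ _ k k' p h h' hp hp1 hE hE' i j hi hj
  refine ⟨AA_nonneg h h' hp hi hj, AA_sq h h' hp hp1 hi hj, fun t => AA_main h h' hp hp1 hE hE'
    hi hj t, fun s => ?_⟩
  have h1 := AA_main h' h (BC.conj hp) (fun x => by rw [Complex.norm_conj]; exact hp1 x) hE' hE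
    hj hi s
  rw [AA_swap h h' hp hi hj, AA_swap h h' hp (i := i + s) (by omega) hj]
  exact h1

end Run7.h630.PC
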